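import Pool.Agent.Work.MP_00dc5c_co.Main

/-! The exact value of `f(δ, Δ)` for all `1 ≤ δ ≤ Δ`. -/

namespace Pool.Agent.Results.MP_00dc5c_co.ExactValue

open Pool.Agent.Work.MP_00dc5c_co

theorem result (δ Δ r F : ℕ) (h1 : 1 ≤ δ) (h2 : δ ≤ Δ) (hr : r = (δ + 1) / 2)
    (hF : F = if 4 * r ≤ Δ + 3 then r * (Δ + 3 - 2 * r) else (Δ + 3) ^ 2 / 8) :
    (∀ (V : Type) [Fintype V] [DecidableEq V] (G : SimpleGraph V) [DecidableRel G.Adj],
        G.minDegree = δ → G.maxDegree = Δ → DC G ≤ F) ∧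
      ∃ (V : Type) (_ : Fintype V) (_ : DecidableEq V) (G : SimpleGraph V)
        (_ : DecidableRel G.Adj),
          (2 ≤ δ → G.Connected) ∧ G.minDegree = δ ∧ G.maxDegree = Δ ∧ DC G = F := by
  subst hr hF
  refine ⟨?_, exists_extremal δ Δ h1 h2⟩
  intro V _ _ G _ e1 e2
  have := DC_le_val G (by rw [e1]; exact h1)
  rwa [e1, e2] at this

end Pool.Agent.Results.MP_00dc5c_co.ExactValue
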